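import Pool.Agent.W64.DM.Stm

set_option autoImplicit false

/-!
The Chung-Erdos inequality.
-/

namespace Pool.Agent.W358.DM.CE

open MeasureTheory Set Pool.Agent.W64.DM

theorem main : S_CE := by
  classical
  intro ι V E hE hsub
  set U : Set ℝ := ⋃ v ∈ V, E v with hU
  have hUm : MeasurableSet U := V.measurableSet_biUnion fun v _ => hE v
  have hfin : ∀ s : Set ℝ, s ⊆ Icc 0 1 → volume s ≠ ⊤ := by
    intro s hs
    exact ((measure_mono hs).trans_lt (by simp)).ne
  have hUs : U ⊆ Icc 0 1 := iUnion₂_subset fun v _ => hsub v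
  let I : Set ℝ → ℝ → ℝ := fun s => s.indicator fun _ => (1 : ℝ)
  have hint : ∀ s : Set ℝ, MeasurableSet s → s ⊆ Icc 0 1 → Integrable (I s) volume := by
    intro s hs hs1
    exact (integrable_indicator_iff hs).mpr (integrableOn_const (hfin s hs1))
  have hval : ∀ s : Set ℝ, MeasurableSet s → ∫ x, I s x = (volume s).toReal := by
    intro s hs
    show ∫ x, s.indicator (fun _ => (1 : ℝ)) x = _
    rw [integral_indicator_const (1 : ℝ) hs, smul_eq_mul, mul_one]
    rfl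
  have hmul : ∀ s t : Set ℝ, ∀ x, I s x * I t x = I (s ∩ t) x := by
    intro s t x
    by_cases h1 : x ∈ s <;> by_cases h2 : x ∈ t <;> simp [I, h1, h2]
  have hsq : ∀ x, (∑ v ∈ V, I (E v) x) ^ 2 = ∑ v ∈ V, ∑ v' ∈ V, I (E v ∩ E v') x := by
    intro x
    rw [sq, Finset.sum_mul_sum]
    exact Finset.sum_congr rfl fun v _ => Finset.sum_congr rfl fun v' _ => hmul _ _ _
  have hpt : ∀ c x : ℝ, 0 ≤ (∑ v ∈ V, ∑ v' ∈ V, I (E v ∩ E v') x) -
      2 * c * (∑ v ∈ V, I (E v) x) + c ^ 2 * I U x := by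
    intro c x
    rw [← hsq]
    by_cases hx : x ∈ U
    · have : I U x = 1 := by simp [I, hx]
      rw [this]
      nlinarith [sq_nonneg ((∑ v ∈ V, I (E v) x) - c)]
    · have h0 : I U x = 0 := by simp [I, hx]
      have h1 : ∑ v ∈ V, I (E v) x = 0 := by
        refine Finset.sum_eq_zero fun v hv => ?_
        have : x ∉ E v := fun h => hx (mem_iUnion₂.mpr ⟨v, hv, h⟩)
        simp [I, this]
      rw [h0, h1]; norm_num
  have hi1 : Integrable (fun x => ∑ v ∈ V, I (E v) x) volume :=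
    integrable_finsetSum V fun v _ => hint _ (hE v) (hsub v)
  have hi2 : Integrable (fun x => ∑ v ∈ V, ∑ v' ∈ V, I (E v ∩ E v') x) volume :=
    integrable_finsetSum V fun v _ => integrable_finsetSum V fun v' _ =>
      hint _ ((hE v).inter (hE v')) (inter_subset_left.trans (hsub v))
  have hi3 : Integrable (I U) volume := hint U hUm hUs
  have e1 : ∫ x, ∑ v ∈ V, I (E v) x = ∑ v ∈ V, (volume (E v)).toReal := by
    rw [integral_finsetSum V fun v _ => hint _ (hE v) (hsub v)]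
    exact Finset.sum_congr rfl fun v _ => hval _ (hE v)
  have e2 : ∫ x, ∑ v ∈ V, ∑ v' ∈ V, I (E v ∩ E v') x =
      ∑ v ∈ V, ∑ v' ∈ V, (volume (E v ∩ E v')).toReal := by
    rw [integral_finsetSum V fun v _ => integrable_finsetSum V fun v' _ =>
      hint _ ((hE v).inter (hE v')) (inter_subset_left.trans (hsub v))]
    refine Finset.sum_congr rfl fun v _ => ?_
    rw [integral_finsetSum V fun v' _ =>
      hint _ ((hE v).inter (hE v')) (inter_subset_left.trans (hsub v))]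
    exact Finset.sum_congr rfl fun v' _ => hval _ ((hE v).inter (hE v'))
  have key : ∀ c : ℝ, 0 ≤ (volume U).toReal * (c * c) +
      (-2 * ∑ v ∈ V, (volume (E v)).toReal) * c +
      ∑ v ∈ V, ∑ v' ∈ V, (volume (E v ∩ E v')).toReal := by
    intro c
    have h1 : 0 ≤ ∫ x, ((∑ v ∈ V, ∑ v' ∈ V, I (E v ∩ E v') x) -
        2 * c * (∑ v ∈ V, I (E v) x) + c ^ 2 * I U x) := integral_nonneg fun x => hpt c x
    have h2 : ∫ x, ((∑ v ∈ V, ∑ v' ∈ V, I (E v ∩ E v') x) -
        2 * c * (∑ v ∈ V, I (E v) x) + c ^ 2 * I U x) =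
        (∫ x, ((∑ v ∈ V, ∑ v' ∈ V, I (E v ∩ E v') x) - 2 * c * (∑ v ∈ V, I (E v) x))) +
          ∫ x, c ^ 2 * I U x :=
      integral_add (hi2.sub (hi1.const_mul (2 * c))) (hi3.const_mul (c ^ 2))
    have h3 : ∫ x, ((∑ v ∈ V, ∑ v' ∈ V, I (E v ∩ E v') x) - 2 * c * (∑ v ∈ V, I (E v) x)) =
        (∫ x, ∑ v ∈ V, ∑ v' ∈ V, I (E v ∩ E v') x) - ∫ x, 2 * c * (∑ v ∈ V, I (E v) x) :=
      integral_sub hi2 (hi1.const_mul (2 * c))
    rw [h2, h3, integral_const_mul, integral_const_mul, e1, e2, hval U hUm] at h1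
    nlinarith [h1]
  have hd := discrim_le_zero key
  unfold discrim at hd
  nlinarith [hd]

end Pool.Agent.W358.DM.CE
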